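import Mathlib

set_option autoImplicit false

namespace Pool.Agent.Results.MP_953c35_gt.Counterexample

open Set

section Defs

variable {X : Type} [TopologicalSpace X]

/-- `𝒜` is an ideal base -/
def IdealBase (𝒜 : Set (Set X)) : Prop :=
  ∀ A₁ ∈ 𝒜, ∀ A₂ ∈ 𝒜, ∃ A₃ ∈ 𝒜, A₁ ∪ A₂ ⊆ A₃

/-- an open cover of `X` that does not have `X` as a member -/
def PCover (𝒰 : Set (Set X)) : Prop :=
  (∀ U ∈ 𝒰, IsOpen U) ∧ ⋃₀ 𝒰 = univ ∧ univ ∉ 𝒰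

/-- `O(X, ℬ)` -/
def OCov (ℬ : Set (Set X)) : Set (Set (Set X)) :=
  {𝒰 | PCover 𝒰 ∧ ∀ B ∈ ℬ, ∃ U ∈ 𝒰, B ⊆ U}

/-- `Γ(X, ℬ)` -/
def GCov (ℬ : Set (Set X)) : Set (Set (Set X)) :=
  {𝒰 | PCover 𝒰 ∧ 𝒰.Infinite ∧ ∀ B ∈ ℬ, {U ∈ 𝒰 | ¬ B ⊆ U}.Finite}

/-- Two has a winning Markov strategy in `G₁(N[𝒜], ¬P)` -/
def TwoMarkov (𝒜 : Set (Set X)) (P : Set (Set (Set X))) : Prop :=
  ∃ τ : Set X → ℕ → Set X, (∀ A ∈ 𝒜, ∀ n, IsOpen (τ A n) ∧ A ⊆ τ A n ∧ τ A n ≠ univ) ∧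
    ∀ A : ℕ → Set X, (∀ n, A n ∈ 𝒜) → (range fun n => τ (A n) n) ∉ P

end Defs

abbrev X : Type := CofiniteTopology (ℕ × ℕ)

def pr (x : X) : ℕ × ℕ := x.ofTopology

def A (m : ℕ) (f : ℕ → ℕ) : Set X := {x | (pr x).1 ≤ m ∨ (pr x).2 ≤ f (pr x).1}

def 𝒜 : Set (Set X) := {S | ∃ m f, S = A m f}

def ℬ : Set (Set X) := {B | ∀ x ∈ B, ∀ y ∈ B, (pr x).1 < (pr y).1 → (pr x).2 ≤ (pr y).2}

theorem ex_pt (S : Set X) : ∃ x : X, S ∈ 𝒜 → x ∉ S := by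
  by_cases h : S ∈ 𝒜
  · obtain ⟨m, f, rfl⟩ := h
    refine ⟨CofiniteTopology.of ((m + 1, f (m + 1) + 1) : ℕ × ℕ), fun _ => ?_⟩
    rintro (h | h)
    · change m + 1 ≤ m at h
      omega
    · change f (m + 1) + 1 ≤ f (m + 1) at h
      omega
  · exact ⟨CofiniteTopology.of ((0, 0) : ℕ × ℕ), fun h' => absurd h' h⟩

theorem tall {S : Set X} (hS : S.Infinite) : ∃ B ∈ ℬ, B ⊆ S ∧ B.Infinite := by
  let e := hS.natEmbedding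
  obtain ⟨g, hg⟩ := (wellQuasiOrdered_le (α := ℕ × ℕ)).exists_monotone_subseq
    fun n => pr (e n).1
  refine ⟨range fun n => (e (g n)).1, ?_, ?_, ?_⟩
  · rintro _ ⟨a, rfl⟩ _ ⟨b, rfl⟩ hab
    rcases le_total a b with h | h
    · exact (hg a b h).2
    · exact absurd (hg b a h).1 (not_le.2 hab)
  · rintro _ ⟨a, rfl⟩
    exact (e _).2
  · exact infinite_range_of_injective fun a b hab => g.injective (e.injective (Subtype.ext hab))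

theorem gamma : TwoMarkov 𝒜 (GCov ℬ) := by
  choose p hp using ex_pt
  refine ⟨fun S _ => {p S}ᶜ, fun S hS _ => ⟨isOpen_compl_singleton,
    fun x hx h => hp S hS (mem_singleton_iff.1 h ▸ hx), fun h => ?_⟩, ?_⟩
  · exact eq_univ_iff_forall.1 h (p S) rfl
  · rintro S - ⟨-, hinf, hfin⟩
    have h1 : (range fun n => p (S n)).Infinite := by
      intro hf
      refine hinf ((hf.image fun x => ({x}ᶜ : Set X)).subset ?_)
      rintro _ ⟨n, rfl⟩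
      exact ⟨_, ⟨n, rfl⟩, rfl⟩
    obtain ⟨B, hB, h2, h3⟩ := tall h1
    refine (h3.image (f := fun x => ({x}ᶜ : Set X)) fun a _ b _ h =>
      singleton_injective (compl_injective h)) ((hfin B hB).subset ?_)
    rintro _ ⟨x, hx, rfl⟩
    obtain ⟨n, rfl⟩ := h2 hx
    exact ⟨⟨n, rfl⟩, fun h => h hx rfl⟩

theorem not_o : ¬ TwoMarkov 𝒜 (OCov ℬ) := by
  rintro ⟨τ, h1, h2⟩
  have hfin : ∀ m f n, (τ (A m f) n)ᶜ.Finite := fun m f n =>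
    CofiniteTopology.isOpen_iff.1 (h1 _ ⟨m, f, rfl⟩ n).1
      ⟨CofiniteTopology.of ((0, 0) : ℕ × ℕ), (h1 _ ⟨m, f, rfl⟩ n).2.1 (Or.inl (Nat.zero_le m))⟩
  choose f hf using fun i =>
    ((hfin i (fun _ => 0) (i + 1)).image fun x => (pr x).2).bddAbove
  let S : ℕ → Set X := fun n => Nat.casesOn n (A 0 f) fun i => A i fun _ => 0
  have hS : ∀ n, S n ∈ 𝒜 := by
    rintro (_ | i)
    · exact ⟨0, f, rfl⟩
    · exact ⟨i, _, rfl⟩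
  have key : ∀ B ∈ ℬ, ∃ U ∈ range fun n => τ (S n) n, B ⊆ U := by
    intro B hB
    by_cases h : B ⊆ τ (S 0) 0
    · exact ⟨_, ⟨0, rfl⟩, h⟩
    · obtain ⟨x, hx, hx'⟩ := not_subset.1 h
      refine ⟨_, ⟨(pr x).1 + 1, rfl⟩, fun y hy => ?_⟩
      by_contra hy'
      have a1 : x ∉ A 0 f := fun h' => hx' ((h1 _ (hS 0) 0).2.1 h')
      have a2 : y ∉ A (pr x).1 fun _ => 0 := fun h' => hy' ((h1 _ (hS ((pr x).1 + 1)) _).2.1 h')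
      have a3 : (pr y).2 ≤ f (pr x).1 := hf _ ⟨y, hy', rfl⟩
      simp only [A, mem_ofPred_eq, not_or, not_le] at a1 a2
      have := hB x hx y hy a2.1
      omega
  refine h2 S hS ⟨⟨?_, eq_univ_of_forall fun x => ?_, ?_⟩, key⟩
  · rintro _ ⟨n, rfl⟩
    exact (h1 _ (hS n) n).1
  · obtain ⟨U, hU, h⟩ := key {x} (by
      rintro _ rfl _ rfl h
      exact le_rfl)
    exact ⟨U, hU, h rfl⟩
  · rintro ⟨n, hn⟩
    exact (h1 _ (hS n) n).2.2 hn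

theorem result : ∃ (X : Type) (_ : TopologicalSpace X) (𝒜 ℬ : Set (Set X)),
    IdealBase 𝒜 ∧ (∀ A ∈ 𝒜, ∃ U : Set X, IsOpen U ∧ A ⊆ U ∧ U ≠ univ) ∧
      TwoMarkov 𝒜 (GCov ℬ) ∧ ¬ TwoMarkov 𝒜 (OCov ℬ) := by
  refine ⟨X, inferInstance, 𝒜, ℬ, ?_, ?_, gamma, not_o⟩
  · rintro _ ⟨m, f, rfl⟩ _ ⟨k, g, rfl⟩
    refine ⟨_, ⟨max m k, fun i => max (f i) (g i), rfl⟩, ?_⟩
    rintro x ((h | h) | (h | h))
    · exact Or.inl (h.trans (le_max_left _ _))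
    · exact Or.inr (h.trans (le_max_left _ _))
    · exact Or.inl (h.trans (le_max_right _ _))
    · exact Or.inr (h.trans (le_max_right _ _))
  · intro S hS
    obtain ⟨τ, h, -⟩ := gamma
    exact ⟨_, h S hS 0⟩

end Pool.Agent.Results.MP_953c35_gt.Counterexample
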